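import Mathlib
import Pool.Agent.Q22.MB.Ker

/-! Generic points of complete intersections which are linear in one factor. -/

set_option autoImplicit false

namespace Pool.Agent.Q22.MB

open Finset Matrix
open Pool.Agent.H548.BK
open Pool.Agent.H548.WM (ht bx mem_bx ht_le le_ht le_ht' exists_ht card_bx_le card_bx ht_pos Rep)
open Pool.Agent.H548.TL (evz evz_map evz_int deg_evz zerosQ)

/-- The matrix of the values of the forms `F i j` at `x`: the equations are `FM F x *ᵥ y = 0`. -/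
noncomputable def FM {R : Type*} [CommRing R] {k N m : ℕ}
    (F : Fin k → Fin N → MvPolynomial (Fin m) ℤ) (x : Fin m → R) : Matrix (Fin k) (Fin N) R :=
  Matrix.of fun i j => evz (F i j) x

theorem FM_map {R S : Type*} [CommRing R] [CommRing S] {k N m : ℕ}
    (F : Fin k → Fin N → MvPolynomial (Fin m) ℤ) (φ : R →+* S) (x : Fin m → R) :
    (FM F x).map φ = FM F (fun i => φ (x i)) := by
  ext i j
  exact evz_map φ (F i j) x

/-- The polynomial in `x` and the parameters. -/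
noncomputable def HH {k N m : ℕ} (F : Fin k → Fin N → MvPolynomial (Fin m) ℤ) (J : Fin k → Fin N)
    (G : MvPolynomial (Fin m ⊕ Fin N) ℤ) : MvPolynomial (Fin m ⊕ Fin N) ℤ :=
  ((FM F (fun i => (MvPolynomial.X (Sum.inl i) : MvPolynomial (Fin m ⊕ Fin N) ℤ))).submatrix id J).det *
    evz G (two (fun i => MvPolynomial.X (Sum.inl i))
      (Zm (FM F (fun i => (MvPolynomial.X (Sum.inl i) : MvPolynomial (Fin m ⊕ Fin N) ℤ))) J *ᵥ
        fun j => MvPolynomial.X (Sum.inr j)))

theorem evz_HH {R : Type*} [CommRing R] {k N m : ℕ} (F : Fin k → Fin N → MvPolynomial (Fin m) ℤ)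
    (J : Fin k → Fin N) (G : MvPolynomial (Fin m ⊕ Fin N) ℤ) (x : Fin m → R) (t : Fin N → R) :
    evz (HH F J G) (two x t) =
      ((FM F x).submatrix id J).det * evz G (two x (Zm (FM F x) J *ᵥ t)) := by
  set φ := MvPolynomial.eval₂Hom (Int.castRingHom R) (two x t) with hφ
  have h1 : evz (HH F J G) (two x t) = φ (HH F J G) := rfl
  rw [h1]
  unfold HH
  have e1 : ∀ v, φ (MvPolynomial.X v) = two x t v := fun v => MvPolynomial.eval₂Hom_X' _ _ _
  have e2 : (fun i => φ (MvPolynomial.X (Sum.inl i))) = x := by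
    funext i
    rw [e1]
    rfl
  have e3 : (FM F (fun i => (MvPolynomial.X (Sum.inl i) : MvPolynomial (Fin m ⊕ Fin N) ℤ))).map φ =
      FM F x := by
    rw [FM_map, e2]
  rw [map_mul, Pool.Agent.H548.BK.det_map, e3, evz_map, two_map, e2]
  congr 2
  have e4 : (fun j => φ ((Zm (FM F (fun i => (MvPolynomial.X (Sum.inl i) :
      MvPolynomial (Fin m ⊕ Fin N) ℤ))) J *ᵥ fun j => MvPolynomial.X (Sum.inr j)) j)) =
      Zm (FM F x) J *ᵥ t := by
    funext j
    rw [← e3, ← Zm_map]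
    show φ (∑ c, _ * _) = ∑ c, φ _ * t c
    rw [map_sum]
    refine Finset.sum_congr rfl fun c _ => ?_
    rw [map_mul, e1]
    rfl
  rw [e4]

/-- The generic `x`. -/
theorem gen {k N m : ℕ} {F : Fin k → Fin N → MvPolynomial (Fin m) ℤ}
    {G : MvPolynomial (Fin m ⊕ Fin N) ℤ}
    (hG : ∃ (x : Fin m → ℂ) (y : Fin N → ℂ), FM F x *ᵥ y = 0 ∧
      LinearIndependent ℂ (FM F x).row ∧ evz G (two x y) ≠ 0) :
    ∃ (f : MvPolynomial (Fin m) ℤ) (J : Fin k → Fin N), f ≠ 0 ∧
      ∀ x : Fin m → ℤ, MvPolynomial.eval x f ≠ 0 → ((FM F x).submatrix id J).det ≠ 0 ∧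
        ∃ y0 : Fin N → ℤ, FM F x *ᵥ y0 = 0 ∧ evz G (two x y0) ≠ 0 := by
  obtain ⟨x, y, h0, hr, hGz⟩ := hG
  obtain ⟨J, hJ⟩ := exists_minor' (B := FM F x) hr
  have hH : HH F J G ≠ 0 := by
    intro h
    have h1 := evz_HH F J G x (((FM F x).submatrix id J).det⁻¹ • y)
    rw [h, mulVec_smul, Zm_mulVec _ J h0, smul_smul, inv_mul_cancel₀ hJ, one_smul] at h1
    have h2 : evz (0 : MvPolynomial (Fin m ⊕ Fin N) ℤ)
        (two x (((FM F x).submatrix id J).det⁻¹ • y)) = 0 := by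
      unfold evz
      rw [MvPolynomial.eval₂_zero]
    rw [h2] at h1
    exact mul_ne_zero hJ hGz h1.symm
  obtain ⟨v, hv⟩ : ∃ v, MvPolynomial.eval v (HH F J G) ≠ 0 := by
    by_contra hcon
    push Not at hcon
    apply hH
    apply MvPolynomial.funext
    intro v
    rw [hcon v, map_zero]
  set x1 : Fin m → ℤ := fun i => v (Sum.inl i) with hx1
  set t1 : Fin N → ℤ := fun i => v (Sum.inr i) with ht1
  have hvt : v = two x1 t1 := by
    funext i
    rcases i with i | i <;> rfl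
  set f : MvPolynomial (Fin m) ℤ := evz (HH F J G) (two (fun i => MvPolynomial.X i)
    (fun p => MvPolynomial.C (t1 p))) with hf
  have hfe : ∀ x : Fin m → ℤ, MvPolynomial.eval x f = evz (HH F J G) (two x t1) := by
    intro x
    rw [hf, evz_map, two_map]
    simp only [MvPolynomial.eval_X, MvPolynomial.eval_C]
  refine ⟨f, J, ?_, ?_⟩
  · intro h0
    apply hv
    rw [hvt, ← evz_int, ← hfe, h0, map_zero]
  · intro x hx
    rw [hfe, evz_HH] at hx
    refine ⟨left_ne_zero_of_mul hx, Zm (FM F x) J *ᵥ t1, ?_, right_ne_zero_of_mul hx⟩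
    rw [mulVec_mulVec, mul_Zm, zero_mulVec]

open Classical in
/-- The number of the `y` over a generic `x` at which the polynomial vanishes. -/
theorem few_yG {k N m : ℕ} (hk : k + 1 ≤ N) {F : Fin k → Fin N → MvPolynomial (Fin m) ℤ}
    (G : MvPolynomial (Fin m ⊕ Fin N) ℤ) {x : Fin m → ℤ} {J : Fin k → Fin N}
    (hΔ : ((FM F x).submatrix id J).det ≠ 0)
    (hz : ∃ y0 : Fin N → ℤ, FM F x *ᵥ y0 = 0 ∧ evz G (two x y0) ≠ 0)
    (Y : ℕ) (hY : 1 ≤ Y) :
    (((bx N Y).filter fun y => FM F x *ᵥ y = 0 ∧ evz G (two x y) = 0).card : ℝ) ≤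
      G.totalDegree * 6 ^ (N - 1) * (Y : ℝ) ^ (N - k - 1) := by
  obtain ⟨y0, h0, hy0⟩ := hz
  set P : MvPolynomial (Fin N) ℤ := evz G (two (fun i => MvPolynomial.C (x i))
    (fun k => MvPolynomial.X k)) with hP
  have hPe : ∀ y : Fin N → ℤ, evz P y = evz G (two x y) := by
    intro y
    rw [evz_int, hP, evz_map, two_map]
    simp only [MvPolynomial.eval_X, MvPolynomial.eval_C]
  have hPd : P.totalDegree ≤ G.totalDegree := by
    apply deg_evz
    rintro (i | i)
    · show (MvPolynomial.C (x i) : MvPolynomial (Fin N) ℤ).totalDegree ≤ 1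
      rw [MvPolynomial.totalDegree_C]
      norm_num
    · show (MvPolynomial.X i : MvPolynomial (Fin N) ℤ).totalDegree ≤ 1
      rw [MvPolynomial.totalDegree_X]
  have h1 := few_ker hk hΔ h0 (P := P) (by rw [hPe]; exact hy0) Y hY
  simp only [hPe] at h1
  refine h1.trans ?_
  gcongr

/-- The size of the coefficients. -/
noncomputable def siz {k N m : ℕ} (F : Fin k → Fin N → MvPolynomial (Fin m) ℤ) : ℕ :=
  ∑ i, ∑ j, ∑ s ∈ (F i j).support, ((F i j).coeff s).natAbs + 1

theorem FM_le {k N m : ℕ} {F : Fin k → Fin N → MvPolynomial (Fin m) ℤ} {d : Fin k → ℕ}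
    (hF : ∀ i j, (F i j).totalDegree ≤ d i) {x : Fin m → ℤ} {X : ℕ} (hX : 1 ≤ X)
    (hx : ht x ≤ X) (i : Fin k) (j : Fin N) : |FM F x i j| ≤ ((siz F * X ^ d i : ℕ) : ℤ) := by
  have e0 : FM F x i j = ∑ s ∈ (F i j).support, (F i j).coeff s * ∏ l, x l ^ s l := by
    show evz (F i j) x = _
    rw [evz_int, MvPolynomial.eval_eq']
  rw [e0]
  have hxl : ∀ l, |x l| ≤ (X : ℤ) := fun l => (le_ht' x l).trans (by exact_mod_cast hx)
  have hX' : (1 : ℤ) ≤ X := by exact_mod_cast hX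
  have h1 : |∑ s ∈ (F i j).support, (F i j).coeff s * ∏ l, x l ^ s l| ≤
      ∑ s ∈ (F i j).support, |(F i j).coeff s| * (X : ℤ) ^ d i := by
    refine (Finset.abs_sum_le_sum_abs _ _).trans (Finset.sum_le_sum fun s hs => ?_)
    rw [abs_mul]
    refine mul_le_mul_of_nonneg_left ?_ (abs_nonneg _)
    rw [Finset.abs_prod]
    calc ∏ l, |x l ^ s l| ≤ ∏ l, (X : ℤ) ^ s l :=
          Finset.prod_le_prod (fun l _ => abs_nonneg _) fun l _ => by
            rw [abs_pow]
            exact pow_le_pow_left₀ (abs_nonneg _) (hxl l) _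
      _ = (X : ℤ) ^ ∑ l, s l := Finset.prod_pow_eq_pow_sum _ _ _
      _ ≤ (X : ℤ) ^ d i := by
          refine pow_le_pow_right₀ hX' ?_
          have h2 := MvPolynomial.le_totalDegree hs
          rw [Finsupp.sum_fintype _ _ (fun _ => rfl)] at h2
          exact h2.trans (hF i j)
  refine h1.trans ?_
  rw [← Finset.sum_mul]
  have h3 : ∑ s ∈ (F i j).support, ((F i j).coeff s).natAbs ≤ siz F := by
    unfold siz
    calc ∑ s ∈ (F i j).support, ((F i j).coeff s).natAbs
        ≤ ∑ j, ∑ s ∈ (F i j).support, ((F i j).coeff s).natAbs :=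
          Finset.single_le_sum (f := fun j => ∑ s ∈ (F i j).support, ((F i j).coeff s).natAbs)
            (fun _ _ => Nat.zero_le _) (mem_univ j)
      _ ≤ ∑ i, ∑ j, ∑ s ∈ (F i j).support, ((F i j).coeff s).natAbs :=
          Finset.single_le_sum
            (f := fun i => ∑ j, ∑ s ∈ (F i j).support, ((F i j).coeff s).natAbs)
            (fun _ _ => Nat.zero_le _) (mem_univ i)
      _ ≤ _ := Nat.le_succ _
  have h4 : ∑ s ∈ (F i j).support, |(F i j).coeff s| =
      ((∑ s ∈ (F i j).support, ((F i j).coeff s).natAbs : ℕ) : ℤ) := by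
    push_cast
    rfl
  rw [h4]
  have h5 : (∑ s ∈ (F i j).support, ((F i j).coeff s).natAbs) * X ^ d i ≤ siz F * X ^ d i :=
    Nat.mul_le_mul_right _ h3
  exact_mod_cast h5

end Pool.Agent.Q22.MB
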